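import Pool.Agent.W304.HL.Step

/-!
Marked chain-order polytopes with an arbitrary order part: transversality of the chains below and
above an element.
-/

set_option linter.unusedSectionVars false

namespace Pool.Agent.Y388.HL

open Set Filter Topology Pool.Agent.W304.HL

section co

variable {P : Type*} [PartialOrder P] {A : Set P}

/-- the part of the direction `v` moving the nodes of value at least `r` -/
noncomputable def part (N S : Set {p : P // p ∉ A}) (M m : P → ℝ) (W v : {p : P // p ∉ A} → ℝ)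
    (p : {p : P // p ∉ A}) (r : ℝ) (c : {p : P // p ∉ A}) : ℝ :=
  open Classical in
  if c ∈ N then (if r ≤ M c then m c else 0)
  else if h : ∃ t : P × Finset {p : P // p ∉ A} × P,
      Valid N S t.1 t.2.1 t.2.2 ∧ M t.1 + ∑ d ∈ t.2.1, W d = M t.2.2 ∧ c ∈ t.2.1 then
    (if r ≤ M h.choose.1 + ∑ d ∈ h.choose.2.1.filter (· ≤ c), W d then
      m h.choose.1 + ∑ d ∈ h.choose.2.1.filter (· ≤ c), v d else 0) -
    (if r ≤ M h.choose.1 + ∑ d ∈ h.choose.2.1.filter (· < c), W d then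
      m h.choose.1 + ∑ d ∈ h.choose.2.1.filter (· < c), v d else 0)
  else if p < c then v c else 0

open Classical in
theorem part_of_tight {N S : Set {p : P // p ∉ A}} {M m : P → ℝ} {W v : {p : P // p ∉ A} → ℝ}
    {p : {p : P // p ∉ A}} {r : ℝ} (hNS : Disjoint N S)
    (hw : ∀ b s a, Valid N S b s a → M b + ∑ c ∈ s, W c ≤ M a)
    (hv : ∀ b s a, Valid N S b s a → M b + ∑ c ∈ s, W c = M a → m b + ∑ c ∈ s, v c = m a)
    {b a : P} {s : Finset {p : P // p ∉ A}} (h : Valid N S b s a)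
    (t : M b + ∑ c ∈ s, W c = M a) {c : {p : P // p ∉ A}} (hc : c ∈ s) :
    part N S M m W v p r c =
      (if r ≤ M b + ∑ d ∈ s.filter (· ≤ c), W d then
        m b + ∑ d ∈ s.filter (· ≤ c), v d else 0) -
      (if r ≤ M b + ∑ d ∈ s.filter (· < c), W d then
        m b + ∑ d ∈ s.filter (· < c), v d else 0) := by
  have hcN : c ∉ N := fun h' => Set.disjoint_left.1 hNS h' (h.hs hc)
  have hex : ∃ t : P × Finset {p : P // p ∉ A} × P,
      Valid N S t.1 t.2.1 t.2.2 ∧ M t.1 + ∑ d ∈ t.2.1, W d = M t.2.2 ∧ c ∈ t.2.1 :=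
    ⟨(b, s, a), h, t, hc⟩
  unfold part
  rw [if_neg hcN, dif_pos hex]
  obtain ⟨g1, g2, g3⟩ := hex.choose_spec
  obtain ⟨e1, e2⟩ := exch hw hv h g1 t g2 hc g3
  have e3 := e1
  have e4 := e2
  rw [sum_le_eq hc, sum_le_eq g3] at e3 e4
  have e5 : M b + ∑ d ∈ s.filter (· < c), W d =
      M hex.choose.1 + ∑ d ∈ hex.choose.2.1.filter (· < c), W d := by linarith
  have e6 : m b + ∑ d ∈ s.filter (· < c), v d =
      m hex.choose.1 + ∑ d ∈ hex.choose.2.1.filter (· < c), v d := by linarith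
  rw [← e1, ← e2, ← e5, ← e6]

/-- indices of the upper bounds of the coordinate `p` -/
abbrev Ub (N S : Set {p : P // p ∉ A}) (p : {p : P // p ∉ A}) : Type _ :=
  {k : Finset {p : P // p ∉ A} × P // k.2 ∈ nodes N ∧ (k.1 : Set {p : P // p ∉ A}) ⊆ S ∧
    IsChain (· ≤ ·) (k.1 : Set {p : P // p ∉ A}) ∧ (p : P) < k.2 ∧
    ∀ c ∈ k.1, p < c ∧ (c : P) < k.2}

noncomputable def bg (N S : Set {p : P // p ∉ A}) (p : {p : P // p ∉ A}) :
    Ub N S p → ({p : P // p ∉ A} → ℝ) →ₗ[ℝ] ℝ :=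
  fun j => ∑ c ∈ j.1.1, LinearMap.proj c - nuL A j.1.2

noncomputable def bcg (lam : A → ℝ) (N S : Set {p : P // p ∉ A}) (p : {p : P // p ∉ A}) :
    Ub N S p → ℝ := fun j => - cst lam j.1.2

theorem bg_apply {N S : Set {p : P // p ∉ A}} {p : {p : P // p ∉ A}} (j : Ub N S p)
    (x : {p : P // p ∉ A} → ℝ) : bg N S p j x = ∑ c ∈ j.1.1, x c - nuL A j.1.2 x := by
  show (∑ c ∈ j.1.1, (LinearMap.proj c : ({p : P // p ∉ A} → ℝ) →ₗ[ℝ] ℝ) - nuL A j.1.2) x = _
  rw [LinearMap.sub_apply, sum_proj]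

theorem bg_val (lam : A → ℝ) {N S : Set {p : P // p ∉ A}} {p : {p : P // p ∉ A}} (j : Ub N S p)
    (x : {p : P // p ∉ A} → ℝ) : bg N S p j x + bcg lam N S p j =
      ∑ c ∈ j.1.1, x c - mu lam x j.1.2 := by
  rw [bg_apply, mu_eq]
  show _ + - cst lam j.1.2 = _
  ring

section trans

variable [Finite P] [Fintype {p : P // p ∉ A}]

instance (N S : Set {p : P // p ∉ A}) (p : {p : P // p ∉ A}) : Finite (Ub N S p) := by
  unfold Ub
  infer_instance

open Classical in
theorem trans_co (lam : A → ℝ) (N S : Set {p : P // p ∉ A}) (p : {p : P // p ∉ A})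
    (hNS : Disjoint N S) [Nonempty (Ka N S p)] [Nonempty (Ub N S p)] :
    Trans (cDf N S) (dDf lam N S) (af N S p) (acf lam N S p) (bg N S p) (bcg lam N S p) := by
  intro T w hw v hv
  rw [mem_Om_iff] at hw
  obtain ⟨hw1, hw2, rfl⟩ := hw
  rw [mem_polyD] at hw1
  obtain ⟨hw, hw0⟩ := hw1
  have hv' : ∀ b s a, Valid N S b s a → mu lam w b + ∑ c ∈ s, w c = mu lam w a →
      nuL A b v + ∑ c ∈ s, v c = nuL A a v := by
    intro b s a h ht
    have h1 := mem_dirn.1 hv _ ((tight_inl h).2 ht)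
    rw [cDf_inl] at h1
    linarith
  have hv0 : ∀ c ∈ S, w c = 0 → v c = 0 := by
    intro c hc h
    have h1 := mem_dirn.1 hv _ ((tight_inr (lam := lam) ⟨c, hc⟩).2 h)
    rw [cDf_inr] at h1
    linarith
  set r : ℝ := - mx (bg N S p) (bcg lam N S p) w with hr
  have hU2 : ∀ k : Ka N S p, mu lam w k.1.1 + ∑ c ∈ k.1.2, w c < r := by
    intro k
    have h1 := le_mx (af N S p) (acf lam N S p) w k
    rw [af_val] at h1
    linarith
  have hU3 : ∀ j : Ub N S p, r ≤ mu lam w j.1.2 - ∑ c ∈ j.1.1, w c := by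
    intro j
    have h1 := le_mx (bg N S p) (bcg lam N S p) w j
    rw [bg_val] at h1
    linarith
  set v2 : {p : P // p ∉ A} → ℝ := part N S (mu lam w) (fun n => nuL A n v) w v p r with hv2
  have hn : ∀ n ∈ nodes N, nuL A n v2 = if r ≤ mu lam w n then nuL A n v else 0 := by
    rintro n (hn | ⟨q, hq, rfl⟩)
    · rw [nuL_mem hn, nuL_mem hn, ite_self]
    · rw [nuL_coe, hv2]
      unfold part
      rw [if_pos hq]
  have ht : ∀ b s a, Valid N S b s a → mu lam w b + ∑ c ∈ s, w c = mu lam w a →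
      nuL A b v2 + ∑ c ∈ s, v2 c = nuL A a v2 := by
    intro b s a h ht
    let G : Finset {p : P // p ∉ A} → ℝ := fun s' =>
      if r ≤ mu lam w b + ∑ d ∈ s', w d then nuL A b v + ∑ d ∈ s', v d else 0
    have h1 : ∑ c ∈ s, v2 c = ∑ c ∈ s, (G (s.filter (· ≤ c)) - G (s.filter (· < c))) := by
      apply Finset.sum_congr rfl
      intro c hc
      exact part_of_tight hNS hw hv' h ht hc
    have h2 : G s = if r ≤ mu lam w a then nuL A a v else 0 := by
      show (if r ≤ mu lam w b + ∑ d ∈ s, w d then nuL A b v + ∑ d ∈ s, v d else 0) = _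
      rw [ht, hv' b s a h ht]
    have h3 : G ∅ = if r ≤ mu lam w b then nuL A b v else 0 := by
      show (if r ≤ mu lam w b + ∑ d ∈ ∅, w d then nuL A b v + ∑ d ∈ ∅, v d else 0) = _
      rw [Finset.sum_empty, Finset.sum_empty, add_zero, add_zero]
    rw [h1, telescope G s h.chain, hn b h.hb, hn a h.ha, h2, h3]
    ring
  have hz : ∀ c ∈ S, w c = 0 → v2 c = 0 := by
    intro c hc h
    have hcN : c ∉ N := fun h' => Set.disjoint_left.1 hNS h' hc
    by_cases hex : ∃ t : P × Finset {p : P // p ∉ A} × P, Valid N S t.1 t.2.1 t.2.2 ∧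
        mu lam w t.1 + ∑ d ∈ t.2.1, w d = mu lam w t.2.2 ∧ c ∈ t.2.1
    · obtain ⟨⟨b, s, a⟩, h1, h2, h3⟩ := hex
      rw [hv2, part_of_tight hNS hw hv' h1 h2 h3, sum_le_eq h3, sum_le_eq h3, h, hv0 c hc h,
        add_zero, add_zero, sub_self]
    · rw [hv2]
      unfold part
      rw [if_neg hcN, dif_neg hex, hv0 c hc h, ite_self]
  have hlow : ∀ c ∈ S, c < p → v2 c = 0 := by
    intro c hc hcp
    have hcN : c ∉ N := fun h' => Set.disjoint_left.1 hNS h' hc
    by_cases hex : ∃ t : P × Finset {p : P // p ∉ A} × P, Valid N S t.1 t.2.1 t.2.2 ∧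
        mu lam w t.1 + ∑ d ∈ t.2.1, w d = mu lam w t.2.2 ∧ c ∈ t.2.1
    · obtain ⟨⟨b, s, a⟩, h1, h2, h3⟩ := hex
      have hbc := (h1.bet c h3).1
      have g1 : mu lam w b + ∑ d ∈ s.filter (· ≤ c), w d < r := by
        refine hU2 ⟨(b, s.filter (· ≤ c)), h1.hb, ?_, ?_, hbc.trans hcp, ?_⟩
        · intro d hd
          rw [Finset.mem_coe, Finset.mem_filter] at hd
          exact h1.hs hd.1
        · exact h1.chain.mono (by
            intro d hd
            rw [Finset.mem_coe, Finset.mem_filter] at hd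
            exact hd.1)
        · intro d hd
          rw [Finset.mem_filter] at hd
          exact ⟨(h1.bet d hd.1).1, lt_of_le_of_lt hd.2 hcp⟩
      have g2 := hw0 c hc
      have g3 : mu lam w b + ∑ d ∈ s.filter (· < c), w d < r := by
        rw [sum_le_eq h3] at g1
        linarith
      rw [hv2, part_of_tight hNS hw hv' h1 h2 h3, if_neg (not_le.2 g1), if_neg (not_le.2 g3),
        sub_self]
    · rw [hv2]
      unfold part
      rw [if_neg hcN, dif_neg hex, if_neg (lt_asymm hcp)]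
  have hupp : ∀ c ∈ S, p < c → v2 c = v c := by
    intro c hc hcp
    have hcN : c ∉ N := fun h' => Set.disjoint_left.1 hNS h' hc
    by_cases hex : ∃ t : P × Finset {p : P // p ∉ A} × P, Valid N S t.1 t.2.1 t.2.2 ∧
        mu lam w t.1 + ∑ d ∈ t.2.1, w d = mu lam w t.2.2 ∧ c ∈ t.2.1
    · obtain ⟨⟨b, s, a⟩, h1, h2, h3⟩ := hex
      have h2' : mu lam w b + ∑ d ∈ s, w d = mu lam w a := h2
      have hca := (h1.bet c h3).2
      have hge : ∀ d ∈ s.filter (fun d => ¬ d < c), c ≤ d := by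
        intro d hd
        rw [Finset.mem_filter] at hd
        by_cases hdc : d = c
        · exact hdc.ge
        · rcases h1.chain hd.1 h3 hdc with h4 | h4
          · exact absurd (lt_of_le_of_ne h4 hdc) hd.2
          · exact h4
      have g1 : r ≤ mu lam w a - ∑ d ∈ s.filter (fun d => ¬ d < c), w d := by
        refine hU3 ⟨(s.filter (fun d => ¬ d < c), a), h1.ha, ?_, ?_,
          lt_trans (Subtype.coe_lt_coe.2 hcp) hca, ?_⟩
        · intro d hd
          rw [Finset.mem_coe, Finset.mem_filter] at hd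
          exact h1.hs hd.1
        · exact h1.chain.mono (by
            intro d hd
            rw [Finset.mem_coe, Finset.mem_filter] at hd
            exact hd.1)
        · intro d hd
          exact ⟨lt_of_lt_of_le hcp (hge d hd), (h1.bet d (Finset.mem_filter.1 hd).1).2⟩
      have g4 := Finset.sum_filter_add_sum_filter_not s (· < c) w
      have g2 := hw0 c hc
      have g3 : r ≤ mu lam w b + ∑ d ∈ s.filter (· < c), w d := by linarith
      have g5 : r ≤ mu lam w b + ∑ d ∈ s.filter (· ≤ c), w d := by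
        rw [sum_le_eq h3]
        linarith
      rw [hv2, part_of_tight hNS hw hv' h1 h2 h3, if_pos g5, if_pos g3, sum_le_eq h3 v]
      ring
    · rw [hv2]
      unfold part
      rw [if_neg hcN, dif_neg hex, if_pos hcp]
  have hka : ∀ k : Ka N S p, af N S p k v2 = 0 := by
    intro k
    rw [af_apply, hn _ k.2.1, if_neg, zero_add]
    · apply Finset.sum_eq_zero
      intro c hc
      exact hlow c (k.2.2.1 hc) (k.2.2.2.2.2 c hc).2
    · have := hU2 ⟨(k.1.1, ∅), k.2.1, by simp, by simp, k.2.2.2.2.1, by simp⟩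
      simp only [Finset.sum_empty, add_zero] at this
      exact not_le.2 this
  have hkb : ∀ j : Ub N S p, bg N S p j (v - v2) = 0 := by
    intro j
    have h1 := hU3 ⟨(∅, j.1.2), j.2.1, by simp, by simp, j.2.2.2.2.1, by simp⟩
    simp only [Finset.sum_empty, sub_zero] at h1
    rw [bg_apply, map_sub, hn _ j.2.1, if_pos h1, sub_self, sub_zero]
    apply Finset.sum_eq_zero
    intro c hc
    rw [Pi.sub_apply, hupp c (j.2.2.1 hc) (j.2.2.2.2.2 c hc).1, sub_self]
  refine ⟨v2, ?_, ?_, ?_⟩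
  · rw [mem_dirn]
    rintro (⟨⟨b, s, a⟩, h⟩ | ⟨c, hc⟩) hi
    · rw [cDf_inl, ht b s a h ((tight_inl h).1 hi), sub_self]
    · rw [cDf_inr, hz c hc ((tight_inr (lam := lam) ⟨c, hc⟩).1 hi), neg_zero]
  · rw [mem_eqd]
    intro k _ k' _
    rw [hka, hka]
  · rw [mem_eqd]
    intro j _ j' _
    rw [hkb, hkb]

end trans

end co

end Pool.Agent.Y388.HL
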