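import Pool.Agent.Y388.HL.Step

/-!
Marked chain-order polytopes as in the literature, for arbitrary decompositions.
-/

namespace Pool.Agent.Y388.HL.Problem

open Set

/-- The number of `i`-dimensional faces of `Q`. The nonempty faces of `Q` are the sets of the form
`{x ∈ Q | ∀ y ∈ Q, l y ≤ l x}` for a linear functional `l` (nonempty exposed faces, `Q` included,
which is the case `l = 0`); the dimension of a face is the dimension of its affine hull. -/
noncomputable def fNum {V : Type*} [AddCommGroup V] [Module ℝ V] [TopologicalSpace V]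
    (Q : Set V) (i : ℕ) : ℕ∞ :=
  Set.encard {F : Set V | F.Nonempty ∧ IsExposed ℝ Q F ∧
    Module.finrank ℝ (vectorSpan ℝ F) = i}

/-- `(U₁, U₂)` is a decomposition of `P \ A`: the two parts cover `P \ A` and are disjoint. -/
structure Decomposition {P : Type*} (A : Set P) (U₁ U₂ : Set {p : P // p ∉ A}) :
    Prop where
  union_eq : U₁ ∪ U₂ = Set.univ
  inter_eq : U₁ ∩ U₂ = ∅

/-- `μ_r`, which is the mark `λ_r` for `r ∈ A` and the coordinate `x_r` for `r ∉ A`. -/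
noncomputable def mu {P : Type*} {A : Set P} (lam : A → ℝ) (x : {p : P // p ∉ A} → ℝ) (r : P) : ℝ :=
  open Classical in if h : r ∈ A then lam ⟨r, h⟩ else x ⟨r, h⟩

/-- The marked chain-order polytope `CO_{U₁,U₂}(λ)` in `ℝ^{P \ A}`. Chains
`p₁ < ⋯ < pₛ` in `U₂` are given as nonempty finite totally ordered subsets `s` of `U₂`. -/
def CO {P : Type*} [PartialOrder P] {A : Set P} (lam : A → ℝ) (U₁ U₂ : Set {p : P // p ∉ A}) :
    Set ({p : P // p ∉ A} → ℝ) :=
  {x | (∀ p ∈ U₂, 0 ≤ x p) ∧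
    (∀ p ∈ U₁, ∀ q ∈ U₁, p < q → x p ≤ x q) ∧
    (∀ p ∈ U₁, ∀ a : A, (p : P) < a → x p ≤ lam a) ∧
    (∀ q ∈ U₁, ∀ b : A, (b : P) < q → lam b ≤ x q) ∧
    (∀ s : Finset {p : P // p ∉ A}, s.Nonempty → (s : Set {p : P // p ∉ A}) ⊆ U₂ →
      IsChain (· ≤ ·) (s : Set {p : P // p ∉ A}) → ∀ q ∈ U₁, (∀ p ∈ s, p < q) →
        ∑ p ∈ s, x p ≤ x q) ∧
    (∀ s : Finset {p : P // p ∉ A}, s.Nonempty → (s : Set {p : P // p ∉ A}) ⊆ U₂ →
      IsChain (· ≤ ·) (s : Set {p : P // p ∉ A}) → ∀ a b : P, a ∈ A ∪ Subtype.val '' U₁ →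
        b ∈ A ∪ Subtype.val '' U₁ → (∀ p ∈ s, b < (p : P) ∧ (p : P) < a) →
          ∑ p ∈ s, x p ≤ mu lam x a - mu lam x b)}

theorem mu_eq' {P : Type*} [PartialOrder P] {A : Set P} (lam : A → ℝ)
    (x : {p : P // p ∉ A} → ℝ) (r : P) : mu lam x r = Pool.Agent.W304.HL.mu lam x r := rfl

open Pool.Agent.W304.HL in
theorem CO_eq_ip {P : Type*} [PartialOrder P] [Finite P] {A : Set P}
    (hA : ∀ p : P, IsMin p ∨ IsMax p → p ∈ A) (lam : A → ℝ) (hlam : ∀ a, 0 ≤ lam a)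
    {U₁ U₂ : Set {p : P // p ∉ A}} (hU : Decomposition A U₁ U₂) : CO lam U₁ U₂ = ip lam U₁ := by
  have hU2 : U₂ = U₁ᶜ := by
    ext c
    constructor
    · intro h h'
      have : c ∈ U₁ ∩ U₂ := ⟨h', h⟩
      rw [hU.inter_eq] at this
      exact this
    · intro h
      have : c ∈ U₁ ∪ U₂ := by rw [hU.union_eq]; trivial
      exact this.resolve_left h
  subst hU2
  ext x
  constructor
  · rintro ⟨h1, h2, h3, h4, -, h6⟩
    refine ⟨fun b s a hv => ?_, h1⟩
    rcases s.eq_empty_or_nonempty with hs | hs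
    · rw [hs, Finset.sum_empty, add_zero]
      have hne := hv.ne hs
      have hlt := hv.lt
      rcases hv.hb with hb | ⟨p, hp, rfl⟩
      · rcases hv.ha with ha | ⟨q, hq, rfl⟩
        · exact absurd ⟨hb, ha⟩ hne
        · rw [mu_mem hb, mu_coe]
          exact h4 q hq ⟨b, hb⟩ hlt
      · rcases hv.ha with ha | ⟨q, hq, rfl⟩
        · rw [mu_mem ha, mu_coe]
          exact h3 p hp ⟨a, ha⟩ hlt
        · rw [mu_coe, mu_coe]
          exact h2 p hp q hq hlt
    · have := h6 s hs hv.hs hv.chain a b hv.ha hv.hb hv.bet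
      rw [mu_eq', mu_eq'] at this
      linarith
  · rintro ⟨h1, h2⟩
    refine ⟨h2, fun p hp q hq hpq => ?_, fun p hp a hpa => ?_, fun q hq b hbq => ?_,
      fun s hs hsU hch q hq hsq => ?_, fun s hs hsU hch a b ha hb hbet => ?_⟩
    · have := h1 p ∅ q ⟨coe_mem_nodes.2 hp, coe_mem_nodes.2 hq, by simp, by simp, hpq, by simp,
        fun _ h => p.2 h.1⟩
      rwa [mu_coe, mu_coe, Finset.sum_empty, add_zero] at this
    · have := h1 p ∅ a ⟨coe_mem_nodes.2 hp, Or.inl a.2, by simp, by simp, hpa, by simp,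
        fun _ h => p.2 h.1⟩
      rwa [mu_coe, mu_mem a.2, Finset.sum_empty, add_zero] at this
    · have := h1 b ∅ q ⟨Or.inl b.2, coe_mem_nodes.2 hq, by simp, by simp, hbq, by simp,
        fun _ h => q.2 h.2⟩
      rwa [mu_coe, mu_mem b.2, Finset.sum_empty, add_zero] at this
    · obtain ⟨c, hc⟩ := s.exists_minimal hs
      obtain ⟨b, hb, hbc⟩ := exists_mark_lt (fun q h => hA q (Or.inl h)) (c : P) c.2
      have hcs : ∀ p ∈ s, c ≤ p := by
        intro p hp
        by_cases hpc : p = c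
        · exact hpc.ge
        · rcases hch hp hc.1 hpc with h | h
          · exact hc.2 hp h
          · exact h
      have hbet : ∀ p ∈ s, b < (p : P) ∧ (p : P) < q := fun p hp =>
        ⟨lt_of_lt_of_le hbc (hcs p hp), hsq p hp⟩
      have := h1 b s q ⟨Or.inl hb, coe_mem_nodes.2 hq, hsU, hch, hbc.trans (hsq c hc.1), hbet,
        fun _ h => q.2 h.2⟩
      rw [mu_mem hb, mu_coe] at this
      linarith [hlam ⟨b, hb⟩]
    · obtain ⟨c, hc⟩ := hs
      have := h1 b s a ⟨hb, ha, hsU, hch, (hbet c hc).1.trans (hbet c hc).2, hbet,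
        fun h => absurd hc (by simp [h])⟩
      rw [mu_eq', mu_eq']
      linarith

/-- **Monotonicity of the face numbers of marked chain-order polytopes**, all decompositions. -/
theorem mono {P : Type*} [PartialOrder P] [Finite P] (A : Set P)
    (hA : ∀ p : P, IsMin p ∨ IsMax p → p ∈ A) (lam : A → ℝ) (hlam : ∀ a, 0 ≤ lam a)
    (U₁ U₂ V₁ V₂ : Set {p : P // p ∉ A}) (hU : Decomposition A U₁ U₂) (hV : Decomposition A V₁ V₂)
    (hUV : U₁ ⊆ V₁) (i : ℕ) : fNum (CO lam V₁ V₂) i ≤ fNum (CO lam U₁ U₂) i := by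
  rw [CO_eq_ip hA lam hlam hU, CO_eq_ip hA lam hlam hV]
  exact Pool.Agent.Y388.HL.mono_ip lam (fun q h => hA q (Or.inl h)) (fun q h => hA q (Or.inr h)) i
    _ V₁ rfl hUV

theorem finite {P : Type*} [PartialOrder P] [Finite P] (A : Set P)
    (hA : ∀ p : P, IsMin p ∨ IsMax p → p ∈ A) (lam : A → ℝ) (hlam : ∀ a, 0 ≤ lam a)
    (U₁ U₂ : Set {p : P // p ∉ A}) (hU : Decomposition A U₁ U₂) (i : ℕ) :
    fNum (CO lam U₁ U₂) i ≠ ⊤ := by
  rw [CO_eq_ip hA lam hlam hU]
  have := Fintype.ofFinite {p : P // p ∉ A}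
  have h1 : Pool.Agent.W304.HL.ip lam U₁ = Pool.Agent.W304.HL.poly
      (Pool.Agent.W304.HL.cDf U₁ U₁ᶜ) (Pool.Agent.W304.HL.dDf lam U₁ U₁ᶜ) := by
    ext x
    rw [Pool.Agent.W304.HL.mem_polyD]
    rfl
  rw [h1]
  exact (Pool.Agent.W304.HL.finite_faces _ _ i).encard_lt_top.ne

end Pool.Agent.Y388.HL.Problem
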