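import Pool.Agent.Y388.HL.CO

/-!
Moving one element from the order part to the chain part, for arbitrary partitions.
-/

set_option linter.unusedSectionVars false

namespace Pool.Agent.Y388.HL

open Set Filter Topology Pool.Agent.W304.HL

section step

variable {P : Type*} [PartialOrder P] {A : Set P} [Finite P] [Fintype {p : P // p ∉ A}]

theorem ip_eq_P0 (lam : A → ℝ) {N : Set {p : P // p ∉ A}} {p : {p : P // p ∉ A}} (hp : p ∈ N)
    [Nonempty (Ka (N \ {p}) Nᶜ p)] [Nonempty (Ub (N \ {p}) Nᶜ p)] :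
    poly (c0 (cDf (N \ {p}) Nᶜ) (af (N \ {p}) Nᶜ p) (bg (N \ {p}) Nᶜ p) (LinearMap.proj p))
      (d0 (dDf lam (N \ {p}) Nᶜ) (acf lam (N \ {p}) Nᶜ p) (bcg lam (N \ {p}) Nᶜ p)) =
      ip lam N := by
  ext x
  have h6 : (LinearMap.proj p : ({p : P // p ∉ A} → ℝ) →ₗ[ℝ] ℝ) x = x p := rfl
  rw [mem_P0, mem_polyD, mx_le_iff, mx_le_iff, h6]
  constructor
  · rintro ⟨⟨h1, h2⟩, h3, h4⟩
    refine ⟨fun b s a hv => ?_, h2⟩
    by_cases ha : a = p
    · subst ha
      have h5 := h3 ⟨(b, s), mem_nodes_diff hv.hb hv.lt.ne, hv.hs, hv.chain, hv.lt, hv.bet⟩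
      rw [af_val] at h5
      rw [mu_coe]
      exact h5
    · by_cases hb : b = p
      · subst hb
        have h5 := h4 ⟨(s, a), mem_nodes_diff hv.ha ha, hv.hs, hv.chain, hv.lt, hv.bet⟩
        rw [bg_val] at h5
        rw [mu_coe]
        linarith
      · exact h1 b s a ⟨mem_nodes_diff hv.hb hb, mem_nodes_diff hv.ha ha, hv.hs, hv.chain, hv.lt,
          hv.bet, hv.ne⟩
  · rintro ⟨h1, h2⟩
    refine ⟨⟨fun b s a hv => ?_, h2⟩, fun k => ?_, fun j => ?_⟩
    · exact h1 b s a ⟨nodes_mono sdiff_subset hv.hb, nodes_mono sdiff_subset hv.ha, hv.hs, hv.chain,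
        hv.lt, hv.bet, hv.ne⟩
    · rw [af_val]
      have h3 := h1 k.1.1 k.1.2 p ⟨nodes_mono sdiff_subset k.2.1, coe_mem_nodes.2 hp, k.2.2.1,
        k.2.2.2.1, k.2.2.2.2.1, k.2.2.2.2.2, fun _ h => p.2 h.2⟩
      rw [mu_coe] at h3
      exact h3
    · rw [bg_val]
      have h3 := h1 p j.1.1 j.1.2 ⟨coe_mem_nodes.2 hp, nodes_mono sdiff_subset j.2.1, j.2.2.1,
        j.2.2.2.1, j.2.2.2.2.1, j.2.2.2.2.2, fun _ h => p.2 h.1⟩
      rw [mu_coe] at h3
      linarith

theorem ip_eq_P1 (lam : A → ℝ) {N : Set {p : P // p ∉ A}} {p : {p : P // p ∉ A}} (hp : p ∈ N)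
    [Nonempty (Ka (N \ {p}) Nᶜ p)] [Nonempty (Ub (N \ {p}) Nᶜ p)] :
    poly (c1 (cDf (N \ {p}) Nᶜ) (af (N \ {p}) Nᶜ p) (bg (N \ {p}) Nᶜ p) (LinearMap.proj p))
      (d1 (dDf lam (N \ {p}) Nᶜ) (acf lam (N \ {p}) Nᶜ p) (bcg lam (N \ {p}) Nᶜ p)) =
      ip lam (N \ {p}) := by
  classical
  have hS : Nᶜ ⊆ (N \ {p})ᶜ := compl_subset_compl.2 sdiff_subset
  have hS' : ∀ c ∈ (N \ {p})ᶜ, c ≠ p → c ∈ Nᶜ := fun c hc hne hcN => hc ⟨hcN, hne⟩
  have hpS : p ∈ (N \ {p})ᶜ := fun h => h.2 rfl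
  ext x
  have h6 : (LinearMap.proj p : ({p : P // p ∉ A} → ℝ) →ₗ[ℝ] ℝ) x = x p := rfl
  rw [mem_P1, mem_polyD, mx_add_le_iff, h6]
  constructor
  · rintro ⟨⟨h1, h2⟩, h3, h4⟩
    refine ⟨fun b s a hv => ?_, fun c hc => ?_⟩
    · by_cases hps : p ∈ s
      · have k1 : ((s.filter (· < p) : Finset {p : P // p ∉ A}) : Set {p : P // p ∉ A}) ⊆ Nᶜ := by
          intro c hc
          rw [Finset.mem_coe, Finset.mem_filter] at hc
          exact hS' c (hv.hs hc.1) hc.2.ne
        have k2 : ((s.filter (p < ·) : Finset {p : P // p ∉ A}) : Set {p : P // p ∉ A}) ⊆ Nᶜ := by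
          intro c hc
          rw [Finset.mem_coe, Finset.mem_filter] at hc
          exact hS' c (hv.hs hc.1) hc.2.ne'
        have k3 : IsChain (· ≤ ·)
            ((s.filter (· < p) : Finset {p : P // p ∉ A}) : Set {p : P // p ∉ A}) :=
          hv.chain.mono (by exact_mod_cast Finset.filter_subset _ s)
        have k4 : IsChain (· ≤ ·)
            ((s.filter (p < ·) : Finset {p : P // p ∉ A}) : Set {p : P // p ∉ A}) :=
          hv.chain.mono (by exact_mod_cast Finset.filter_subset _ s)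
        have h5 := h4 ⟨(b, s.filter (· < p)), hv.hb, k1, k3, (hv.bet p hps).1, fun c hc =>
            ⟨(hv.bet c (Finset.mem_filter.1 hc).1).1, (Finset.mem_filter.1 hc).2⟩⟩
          ⟨(s.filter (p < ·), a), hv.ha, k2, k4, (hv.bet p hps).2, fun c hc =>
            ⟨(Finset.mem_filter.1 hc).2, (hv.bet c (Finset.mem_filter.1 hc).1).2⟩⟩
        rw [af_val, bg_val] at h5
        rw [sum_split hv.chain hps, sum_le_eq hps]
        linarith
      · refine h1 b s a ⟨hv.hb, hv.ha, fun c hc => hS' c (hv.hs hc) ?_, hv.chain, hv.lt, hv.bet,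
          hv.ne⟩
        rintro rfl
        exact hps hc
    · by_cases hcp : c = p
      · rw [hcp]
        exact h3
      · exact h2 c (hS' c hc hcp)
  · rintro ⟨h1, h2⟩
    refine ⟨⟨fun b s a hv => ?_, fun c hc => h2 c (hS hc)⟩, h2 p hpS, fun k j => ?_⟩
    · exact h1 b s a ⟨hv.hb, hv.ha, hv.hs.trans hS, hv.chain, hv.lt, hv.bet, hv.ne⟩
    · have hpj : p ∉ j.1.1 := fun h => j.2.2.1 h hp
      have hdis : Disjoint k.1.2 (insert p j.1.1) := by
        rw [Finset.disjoint_left]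
        intro c hc hc'
        have h7 := (k.2.2.2.2.2 c hc).2
        rw [Finset.mem_insert] at hc'
        rcases hc' with rfl | hc'
        · exact lt_irrefl _ h7
        · exact lt_asymm h7 (j.2.2.2.2.2 c hc').1
      have h5 := h1 k.1.1 (k.1.2 ∪ insert p j.1.1) j.1.2 ⟨k.2.1, j.2.1, ?_, ?_,
        k.2.2.2.2.1.trans j.2.2.2.2.1, ?_, ?_⟩
      · rw [af_val, bg_val]
        rw [Finset.sum_union hdis, Finset.sum_insert hpj] at h5
        linarith
      · intro c hc
        rw [Finset.mem_coe, Finset.mem_union, Finset.mem_insert] at hc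
        rcases hc with hc | rfl | hc
        · exact hS (k.2.2.1 hc)
        · exact hpS
        · exact hS (j.2.2.1 hc)
      · intro c hc d hd hne
        rw [Finset.mem_coe, Finset.mem_union, Finset.mem_insert] at hc hd
        have hlow : ∀ u ∈ k.1.2, ∀ t, (t = p ∨ t ∈ j.1.1) → u ≤ t := by
          intro u hu t ht
          rcases ht with rfl | ht
          · exact (k.2.2.2.2.2 u hu).2.le
          · exact ((k.2.2.2.2.2 u hu).2.trans (j.2.2.2.2.2 t ht).1).le
        rcases hc with hc | hc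
        · rcases hd with hd | hd
          · exact k.2.2.2.1 hc hd hne
          · exact Or.inl (hlow c hc d hd)
        · rcases hd with hd | hd
          · exact Or.inr (hlow d hd c hc)
          · rcases hc with rfl | hc
            · rcases hd with rfl | hd
              · exact absurd rfl hne
              · exact Or.inl (j.2.2.2.2.2 d hd).1.le
            · rcases hd with rfl | hd
              · exact Or.inr (j.2.2.2.2.2 c hc).1.le
              · exact j.2.2.2.1 hc hd hne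
      · intro c hc
        rw [Finset.mem_union, Finset.mem_insert] at hc
        rcases hc with hc | rfl | hc
        · exact ⟨(k.2.2.2.2.2 c hc).1,
            lt_trans (Subtype.coe_lt_coe.2 (k.2.2.2.2.2 c hc).2) j.2.2.2.2.1⟩
        · exact ⟨k.2.2.2.2.1, j.2.2.2.2.1⟩
        · exact ⟨k.2.2.2.2.1.trans (Subtype.coe_lt_coe.2 (j.2.2.2.2.2 c hc).1),
            (j.2.2.2.2.2 c hc).2⟩
      · intro h
        exfalso
        have : p ∈ k.1.2 ∪ insert p j.1.1 := by simp
        rw [h] at this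
        simp at this

/-- Moving one element from the order part to the chain part does not decrease face numbers. -/
theorem step (lam : A → ℝ) (hmin : ∀ q : P, IsMin q → q ∈ A) (hmax : ∀ q : P, IsMax q → q ∈ A)
    {N : Set {p : P // p ∉ A}} {p : {p : P // p ∉ A}} (hp : p ∈ N) (n : ℕ) :
    (facesOfDim (ip lam N) n).encard ≤ (facesOfDim (ip lam (N \ {p})) n).encard := by
  classical
  obtain ⟨b0, hb0, hb0p⟩ := exists_mark_lt hmin p p.2
  obtain ⟨a0, ha0, ha0p⟩ := exists_lt_mark hmax p p.2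
  have i1 : Nonempty (Ka (N \ {p}) Nᶜ p) :=
    ⟨⟨(b0, ∅), Or.inl hb0, by simp, by simp, hb0p, by simp⟩⟩
  have i2 : Nonempty (Ub (N \ {p}) Nᶜ p) :=
    ⟨⟨(∅, a0), Or.inl ha0, by simp, by simp, ha0p, by simp⟩⟩
  by_cases hcomp : ∀ b a : A, (b : P) < p → (p : P) < a → lam b ≤ lam a
  · have hpS : p ∉ Nᶜ := fun h => h hp
    have hdis : Disjoint (N \ {p}) Nᶜ := by
      rw [Set.disjoint_left]
      exact fun c hc hc' => hc' hc.1
    have hnu : ∀ r ∈ nodes (N \ {p}), nuL A r (Pi.single p (1:ℝ)) = 0 := by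
      rintro r (hr | ⟨q, hq, rfl⟩)
      · exact nuL_mem hr
      · rw [nuL_coe]
        exact Pi.single_eq_of_ne hq.2 1
    have hsum : ∀ s : Finset {p : P // p ∉ A}, (s : Set {p : P // p ∉ A}) ⊆ Nᶜ →
        ∑ c ∈ s, (Pi.single p (1:ℝ) : {p : P // p ∉ A} → ℝ) c = 0 := by
      intro s hs
      apply Finset.sum_eq_zero
      intro c hc
      apply Pi.single_eq_of_ne
      rintro rfl
      exact hpS (hs hc)
    have key := ncard_ftypes_le (cD := cDf (N \ {p}) Nᶜ) (dD := dDf lam (N \ {p}) Nᶜ)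
      (a := af (N \ {p}) Nᶜ p) (ac := acf lam (N \ {p}) Nᶜ p) (b := bg (N \ {p}) Nᶜ p)
      (bc := bcg lam (N \ {p}) Nᶜ p) (s := LinearMap.proj p) (e := Pi.single p 1)
      ?_ ?_ ?_ ?_ ?_ (trans_co lam _ _ p hdis) n
    · rw [← ncard_faces, ← ncard_faces, ip_eq_P0 lam hp, ip_eq_P1 lam hp] at key
      have f0 : (facesOfDim (ip lam N) n).Finite := by
        rw [← ip_eq_P0 lam hp]
        exact finite_faces _ _ n
      have f1 : (facesOfDim (ip lam (N \ {p})) n).Finite := by
        rw [← ip_eq_P1 lam hp]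
        exact finite_faces _ _ n
      rw [← f0.cast_ncard_eq, ← f1.cast_ncard_eq]
      exact_mod_cast key
    · rintro (⟨⟨b, s, a⟩, h⟩ | ⟨c, hc⟩)
      · rw [cDf_inl, hnu b h.hb, hnu a h.ha, hsum s h.hs]
        simp
      · rw [cDf_inr, neg_eq_zero]
        apply Pi.single_eq_of_ne
        rintro rfl
        exact hpS hc
    · intro k
      rw [af_apply, hnu _ k.2.1, hsum _ k.2.2.1, add_zero]
    · intro j
      rw [bg_apply, hnu _ j.2.1, hsum _ j.2.2.1, sub_zero]
    · show (Pi.single p (1:ℝ) : {p : P // p ∉ A} → ℝ) p = 1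
      exact Pi.single_eq_same p 1
    · intro x hx k j
      rw [mem_polyD] at hx
      rw [af_val, bg_val]
      have hlt : k.1.1 < j.1.2 := k.2.2.2.2.1.trans j.2.2.2.2.1
      have hdisj : Disjoint k.1.2 j.1.1 := by
        rw [Finset.disjoint_left]
        intro c hc hc'
        exact lt_asymm (k.2.2.2.2.2 c hc).2 (j.2.2.2.2.2 c hc').1
      by_cases hc : k.1.2 ∪ j.1.1 = ∅ ∧ k.1.1 ∈ A ∧ j.1.2 ∈ A
      · obtain ⟨h1, h2, h3⟩ := hc
        have h4 := hcomp ⟨_, h2⟩ ⟨_, h3⟩ k.2.2.2.2.1 j.2.2.2.2.1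
        rw [Finset.union_eq_empty] at h1
        rw [h1.1, h1.2, mu_mem h2, mu_mem h3, Finset.sum_empty]
        linarith
      · have h1 := hx.1 k.1.1 (k.1.2 ∪ j.1.1) j.1.2 ⟨k.2.1, j.2.1, ?_, ?_, hlt, ?_,
          fun h h' => hc ⟨h, h'⟩⟩
        · rw [Finset.sum_union hdisj] at h1
          linarith
        · intro c hc
          rw [Finset.mem_coe, Finset.mem_union] at hc
          rcases hc with hc | hc
          · exact k.2.2.1 hc
          · exact j.2.2.1 hc
        · intro c hc d hd hne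
          rw [Finset.mem_coe, Finset.mem_union] at hc hd
          rcases hc with hc | hc <;> rcases hd with hd | hd
          · exact k.2.2.2.1 hc hd hne
          · exact Or.inl ((k.2.2.2.2.2 c hc).2.trans (j.2.2.2.2.2 d hd).1).le
          · exact Or.inr ((k.2.2.2.2.2 d hd).2.trans (j.2.2.2.2.2 c hc).1).le
          · exact j.2.2.2.1 hc hd hne
        · intro c hc
          rw [Finset.mem_union] at hc
          rcases hc with hc | hc
          · exact ⟨(k.2.2.2.2.2 c hc).1,
              lt_trans (Subtype.coe_lt_coe.2 (k.2.2.2.2.2 c hc).2) j.2.2.2.2.1⟩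
          · exact ⟨k.2.2.2.2.1.trans (Subtype.coe_lt_coe.2 (j.2.2.2.2.2 c hc).1),
              (j.2.2.2.2.2 c hc).2⟩
  · push Not at hcomp
    obtain ⟨b, a, hb, ha, hlt⟩ := hcomp
    rw [ip_empty_of hp hb ha hlt, facesOfDim_empty, encard_empty]
    exact zero_le

omit [Fintype {p : P // p ∉ A}] in
/-- The face numbers of the chain-order polytopes do not increase when the order part grows,
for arbitrary order parts. -/
theorem mono_ip (lam : A → ℝ) (hmin : ∀ q : P, IsMin q → q ∈ A) (hmax : ∀ q : P, IsMax q → q ∈ A)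
    (n : ℕ) {M : Set {p : P // p ∉ A}} :
    ∀ (m : ℕ) (N : Set {p : P // p ∉ A}), (N \ M).ncard = m → M ⊆ N →
    (facesOfDim (ip lam N) n).encard ≤ (facesOfDim (ip lam M) n).encard := by
  classical
  have := Fintype.ofFinite {p : P // p ∉ A}
  intro m
  induction m with
  | zero =>
    intro N hm hMN
    have h1 : N \ M = ∅ := (Set.ncard_eq_zero (Set.toFinite _)).1 hm
    have h2 : N = M := subset_antisymm (sdiff_eq_empty.1 h1) hMN
    rw [h2]
  | succ m ih =>
    intro N hm hMN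
    have hne : (N \ M).Nonempty := by
      rw [Set.nonempty_iff_ne_empty]
      intro h
      rw [h, Set.ncard_empty] at hm
      omega
    obtain ⟨p, hp⟩ := hne
    have hpN : p ∈ N := hp.1
    have hpM : p ∉ M := hp.2
    refine (step lam hmin hmax hpN n).trans (ih (N \ {p}) ?_ ?_)
    · have h1 : (N \ {p}) \ M = (N \ M) \ {p} := by
        ext c
        simp only [Set.mem_sdiff, mem_singleton_iff]
        tauto
      rw [h1, Set.ncard_sdiff_singleton_of_mem hp, hm]
      rfl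
    · intro c hc
      refine ⟨hMN hc, ?_⟩
      rintro rfl
      exact hpM hc

end step

end Pool.Agent.Y388.HL
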