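import Mathlib

/-!
The vertices of the order polytope and of the chain polytope of a finite poset (Stanley).
-/

namespace Pool.Agent.Y388.HL.Vert

open Set MeasureTheory

section vert

variable {Q : Type*} [PartialOrder Q] [Fintype Q]

/-- the chain polytope -/
def chainP (Q : Type*) [PartialOrder Q] : Set (Q → ℝ) :=
  {x | (∀ p, 0 ≤ x p) ∧ ∀ s : Finset Q, IsChain (· ≤ ·) (s : Set Q) → ∑ p ∈ s, x p ≤ 1}

/-- the order polytope -/
def orderP (Q : Type*) [PartialOrder Q] : Set (Q → ℝ) :=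
  {x | (∀ p q, p < q → x p ≤ x q) ∧ (∀ p, x p ≤ 1) ∧ ∀ p, 0 ≤ x p}

/-- indicator vectors -/
noncomputable def indS (S : Set Q) : Q → ℝ := open Classical in fun p => if p ∈ S then 1 else 0

omit [Fintype Q] in
theorem indS_mem {S : Set Q} (hS : ∀ p ∈ S, ∀ q ∈ S, ¬ p < q) : indS S ∈ chainP Q := by
  classical
  refine ⟨fun p => by unfold indS; split_ifs <;> norm_num, fun s hs => ?_⟩
  unfold indS
  rw [Finset.sum_ite, Finset.sum_const_zero, add_zero, Finset.sum_const, nsmul_eq_mul, mul_one]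
  have h1 : (s.filter (· ∈ S)).card ≤ 1 := by
    rw [Finset.card_le_one]
    intro a ha b hb
    rw [Finset.mem_filter] at ha hb
    by_contra hne
    rcases hs ha.1 hb.1 hne with h | h
    · exact hS a ha.2 b hb.2 (lt_of_le_of_ne h hne)
    · exact hS b hb.2 a ha.2 (lt_of_le_of_ne h (Ne.symm hne))
  exact_mod_cast h1

open Classical in
/-- the chains below `p` -/
noncomputable def chLe (p : Q) : Finset (Finset Q) :=
  Finset.univ.filter fun s => IsChain (· ≤ ·) (s : Set Q) ∧ ∀ c ∈ s, c ≤ p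

open Classical in
/-- the chains strictly below `p` -/
noncomputable def chLt (p : Q) : Finset (Finset Q) :=
  Finset.univ.filter fun s => IsChain (· ≤ ·) (s : Set Q) ∧ ∀ c ∈ s, c < p

theorem mem_chLe {p : Q} {s : Finset Q} :
    s ∈ chLe p ↔ IsChain (· ≤ ·) (s : Set Q) ∧ ∀ c ∈ s, c ≤ p := by simp [chLe]

theorem mem_chLt {p : Q} {s : Finset Q} :
    s ∈ chLt p ↔ IsChain (· ≤ ·) (s : Set Q) ∧ ∀ c ∈ s, c < p := by simp [chLt]

theorem ne_chLe (p : Q) : (chLe p).Nonempty := ⟨∅, mem_chLe.2 ⟨by simp, by simp⟩⟩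

theorem ne_chLt (p : Q) : (chLt p).Nonempty := ⟨∅, mem_chLt.2 ⟨by simp, by simp⟩⟩

noncomputable def yy (v : Q → ℝ) (p : Q) : ℝ := (chLe p).sup' (ne_chLe p) fun s => ∑ c ∈ s, v c

noncomputable def zz (v : Q → ℝ) (p : Q) : ℝ := (chLt p).sup' (ne_chLt p) fun s => ∑ c ∈ s, v c

theorem zz_nonneg (v : Q → ℝ) (p : Q) : 0 ≤ zz v p := by
  have h : ∑ c ∈ (∅ : Finset Q), v c ≤ zz v p := Finset.le_sup' (fun s : Finset Q => ∑ c ∈ s, v c)
    (show (∅ : Finset Q) ∈ chLt p from mem_chLt.2 ⟨by simp, by simp⟩)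
  rwa [Finset.sum_empty] at h

theorem yy_le_one {v : Q → ℝ} (hv : v ∈ chainP Q) (p : Q) : yy v p ≤ 1 := by
  apply Finset.sup'_le
  intro s hs
  exact hv.2 s (mem_chLe.1 hs).1

theorem yy_le_zz (v : Q → ℝ) {p q : Q} (h : p < q) : yy v p ≤ zz v q := by
  apply Finset.sup'_le
  intro s hs
  rw [mem_chLe] at hs
  exact Finset.le_sup' (fun s : Finset Q => ∑ c ∈ s, v c)
    (mem_chLt.2 ⟨hs.1, fun c hc => lt_of_le_of_lt (hs.2 c hc) h⟩)

theorem yy_eq {v : Q → ℝ} (hv : v ∈ chainP Q) (p : Q) : yy v p = v p + zz v p := by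
  classical
  apply le_antisymm
  · apply Finset.sup'_le
    intro s hs
    rw [mem_chLe] at hs
    by_cases hp : p ∈ s
    · rw [← Finset.add_sum_erase s v hp]
      have h1 : s.erase p ∈ chLt p := mem_chLt.2 ⟨hs.1.mono (by
          exact_mod_cast Finset.erase_subset p s), fun c hc => by
          rw [Finset.mem_erase] at hc
          exact lt_of_le_of_ne (hs.2 c hc.2) hc.1⟩
      have h2 := Finset.le_sup' (fun s : Finset Q => ∑ c ∈ s, v c) h1
      have h3 : ∑ c ∈ s.erase p, v c ≤ zz v p := h2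
      linarith
    · have h1 : s ∈ chLt p := mem_chLt.2 ⟨hs.1, fun c hc =>
        lt_of_le_of_ne (hs.2 c hc) (fun h => hp (h ▸ hc))⟩
      have h2 : ∑ c ∈ s, v c ≤ zz v p := Finset.le_sup' (fun s : Finset Q => ∑ c ∈ s, v c) h1
      have h3 := hv.1 p
      linarith
  · obtain ⟨s, hs, hmax⟩ := Finset.exists_mem_eq_sup' (ne_chLt p) fun s : Finset Q => ∑ c ∈ s, v c
    have h0 : zz v p = ∑ c ∈ s, v c := hmax
    rw [mem_chLt] at hs
    have hps : p ∉ s := fun h => lt_irrefl _ (hs.2 p h)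
    have h1 : insert p s ∈ chLe p := mem_chLe.2 ⟨by
        rw [Finset.coe_insert]
        exact hs.1.insert fun c hc _ => Or.inr (hs.2 c hc).le, fun c hc => by
        rw [Finset.mem_insert] at hc
        rcases hc with rfl | hc
        · exact le_rfl
        · exact (hs.2 c hc).le⟩
    have h2 : ∑ c ∈ insert p s, v c ≤ yy v p :=
      Finset.le_sup' (fun s : Finset Q => ∑ c ∈ s, v c) h1
    rw [Finset.sum_insert hps] at h2
    linarith

/-- Vertices of the chain polytope are indicator vectors of antichains. -/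
theorem vertex {v : Q → ℝ} (hv : v ∈ chainP Q) (l : (Q → ℝ) →ₗ[ℝ] ℝ)
    (hmax : ∀ y ∈ chainP Q, l y ≤ l v) (huniq : ∀ y ∈ chainP Q, l y = l v → y = v) :
    ∃ S : Set Q, (∀ p ∈ S, ∀ q ∈ S, ¬ p < q) ∧ v = indS S := by
  classical
  by_contra hcon
  push Not at hcon
  -- the coefficients of `l`
  let a : Q → ℝ := fun p => l (Pi.single p 1)
  have hl : ∀ x : Q → ℝ, l x = ∑ p, x p * a p := by
    intro x
    have h1 : x = ∑ p, x p • (Pi.single p (1 : ℝ) : Q → ℝ) := by
      ext q
      simp [Finset.sum_apply, Pi.single_apply]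
    conv_lhs => rw [h1]
    rw [map_sum]
    simp [a]
  let 𝒮 : Finset (Finset Q) := Finset.univ.filter fun S =>
    ∀ p ∈ (S : Set Q), ∀ q ∈ (S : Set Q), ¬ p < q
  have hne : 𝒮.Nonempty := ⟨∅, by simp [𝒮]⟩
  obtain ⟨S0, hS0, hS0m⟩ := Finset.exists_max_image 𝒮 (fun S => l (indS (S : Set Q))) hne
  have hS0' : ∀ p ∈ (S0 : Set Q), ∀ q ∈ (S0 : Set Q), ¬ p < q := (Finset.mem_filter.1 hS0).2
  have hlt : l (indS (S0 : Set Q)) < l v := by
    refine lt_of_le_of_ne (hmax _ (indS_mem hS0')) fun h => ?_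
    exact hcon S0 hS0' (huniq _ (indS_mem hS0') h).symm
  -- the level sets
  have hlev : ∀ t : ℝ, l (indS {p | zz v p ≤ t ∧ t < yy v p}) ≤ l (indS (S0 : Set Q)) := by
    intro t
    have h1 : ({p | zz v p ≤ t ∧ t < yy v p} : Set Q) =
        ((Finset.univ.filter fun p => zz v p ≤ t ∧ t < yy v p : Finset Q) : Set Q) := by
      ext p; simp
    rw [h1]
    refine hS0m _ (Finset.mem_filter.2 ⟨Finset.mem_univ _, ?_⟩)
    rw [← h1]
    rintro p ⟨_, hp⟩ q ⟨hq, _⟩ hpq
    have := yy_le_zz v hpq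
    linarith
  have h1 : (fun t : ℝ => l (indS {p | zz v p ≤ t ∧ t < yy v p})) =
      fun t => ∑ p, (Ico (zz v p) (yy v p)).indicator (fun _ => a p) t := by
    funext t
    rw [hl]
    refine Finset.sum_congr rfl fun p _ => ?_
    unfold indS
    by_cases h : zz v p ≤ t ∧ t < yy v p
    · have h' : p ∈ {p | zz v p ≤ t ∧ t < yy v p} := h
      have h'' : t ∈ Ico (zz v p) (yy v p) := h
      rw [if_pos h', one_mul, indicator_of_mem h'']
    · have h' : p ∉ {p | zz v p ≤ t ∧ t < yy v p} := h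
      have h'' : t ∉ Ico (zz v p) (yy v p) := h
      rw [if_neg h', zero_mul, indicator_of_notMem h'']
  have hii : ∀ p, IntegrableOn (fun t => (Ico (zz v p) (yy v p)).indicator (fun _ => a p) t)
      (Ico (0 : ℝ) 1) := fun p => (integrable_const (a p)).indicator measurableSet_Ico
  have hint : ∫ t in Ico (0 : ℝ) 1, l (indS {p | zz v p ≤ t ∧ t < yy v p}) = l v := by
    rw [h1, integral_finsetSum _ fun p _ => hii p, hl v]
    refine Finset.sum_congr rfl fun p _ => ?_
    rw [integral_indicator measurableSet_Ico, Measure.restrict_restrict measurableSet_Ico]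
    have h2 : Ico (zz v p) (yy v p) ∩ Ico 0 1 = Ico (zz v p) (yy v p) := by
      apply inter_eq_left.2
      exact Ico_subset_Ico (zz_nonneg v p) (yy_le_one hv p)
    rw [h2, integral_const, measureReal_restrict_apply_univ, Real.volume_real_Ico_of_le,
      smul_eq_mul]
    · rw [yy_eq hv p]
      ring
    · rw [yy_eq hv p]
      linarith [hv.1 p]
  have hle : ∫ t in Ico (0 : ℝ) 1, l (indS {p | zz v p ≤ t ∧ t < yy v p}) ≤
      ∫ _t in Ico (0 : ℝ) 1, l (indS (S0 : Set Q)) := by
    refine integral_mono ?_ (integrable_const _) fun t => hlev t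
    rw [h1]
    exact integrable_finsetSum _ fun p _ => hii p
  rw [hint, integral_const, measureReal_restrict_apply_univ,
    Real.volume_real_Ico_of_le (by norm_num)] at hle
  simp only [sub_zero, one_smul] at hle
  linarith

/-- The indicator vector of an upper set is the only point of the order polytope which maximises
the functional `∑_F x_p - ∑_{F^c} x_p`. -/
theorem order_vertex {F : Set Q} (hF : IsUpperSet F) :
    indS F ∈ orderP Q ∧ ∃ l : (Q → ℝ) →ₗ[ℝ] ℝ, (∀ y ∈ orderP Q, l y ≤ l (indS F)) ∧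
      ∀ y ∈ orderP Q, l y = l (indS F) → y = indS F := by
  classical
  have hmem : indS F ∈ orderP Q := by
    refine ⟨fun p q hpq => ?_, fun p => ?_, fun p => ?_⟩
    · unfold indS
      by_cases hp : p ∈ F
      · rw [if_pos hp, if_pos (hF hpq.le hp)]
      · rw [if_neg hp]
        split_ifs <;> norm_num
    · unfold indS
      split_ifs <;> norm_num
    · unfold indS
      split_ifs <;> norm_num
  let l : (Q → ℝ) →ₗ[ℝ] ℝ := ∑ p, (if p ∈ F then (1 : ℝ) else -1) • LinearMap.proj p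
  have hl : ∀ x, l x = ∑ p, (if p ∈ F then (1 : ℝ) else -1) * x p := by
    intro x
    simp only [l, LinearMap.sum_apply, LinearMap.smul_apply, LinearMap.proj_apply, smul_eq_mul]
  have hterm : ∀ y ∈ orderP Q, ∀ p, (if p ∈ F then (1 : ℝ) else -1) * y p ≤
      (if p ∈ F then (1 : ℝ) else -1) * indS F p := by
    intro y hy p
    unfold indS
    have h1 := hy.2.1 p
    have h2 := hy.2.2 p
    split_ifs <;> linarith
  refine ⟨hmem, l, fun y hy => ?_, fun y hy h => ?_⟩
  · rw [hl, hl]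
    exact Finset.sum_le_sum fun p _ => hterm y hy p
  · rw [hl, hl] at h
    have h1 := (Finset.sum_eq_sum_iff_of_le fun p _ => hterm y hy p).1 h
    funext p
    have h2 := h1 p (Finset.mem_univ p)
    unfold indS at h2 ⊢
    split_ifs at h2 ⊢ <;> linarith

omit [PartialOrder Q] [Fintype Q] in
theorem indS_injective : Function.Injective (indS : Set Q → Q → ℝ) := by
  classical
  intro S T h
  ext p
  have h1 := congrFun h p
  unfold indS at h1
  by_cases hS : p ∈ S <;> by_cases hT : p ∈ T <;> simp_all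

end vert

end Pool.Agent.Y388.HL.Vert
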