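import Pool.Agent.Y388.HL.Problem
import Pool.Agent.Y388.HL.Vert

/-!
In the unmarked case all chain-order polytopes have as many vertices as there are upper sets.
-/

namespace Pool.Agent.Y388.HL.VertCount

open Set Pool.Agent.Y388.HL.Vert Pool.Agent.Y388.HL.Problem

section count

variable {Q : Type*} [PartialOrder Q] [Fintype Q]

/-- the vertices of the order polytope are at least as many as the upper sets -/
theorem le_order : Set.encard {F : Set Q | IsUpperSet F} ≤ fNum (orderP Q) 0 := by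
  unfold fNum
  have hinj : Function.Injective fun F : Set Q => ({indS F} : Set (Q → ℝ)) :=
    fun F G h => indS_injective (singleton_injective h)
  rw [← hinj.encard_image]
  apply encard_le_encard
  rintro _ ⟨F, hF, rfl⟩
  obtain ⟨hmem, l, hmax, huniq⟩ := order_vertex (Q := Q) hF
  refine ⟨singleton_nonempty _, fun _ => ⟨LinearMap.toContinuousLinearMap l, ?_⟩, ?_⟩
  · ext y
    constructor
    · intro hy
      rw [mem_singleton_iff] at hy
      subst hy
      exact ⟨hmem, fun z hz => hmax z hz⟩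
    · rintro ⟨hy, hy2⟩
      exact huniq y hy (le_antisymm (hmax y hy) (hy2 _ hmem))
  · simp [vectorSpan_singleton]

/-- the vertices of the chain polytope are at most as many as the upper sets -/
theorem chain_le : fNum (chainP Q) 0 ≤ Set.encard {F : Set Q | IsUpperSet F} := by
  classical
  unfold fNum
  refine le_trans (encard_le_encard (t := (fun F : Set Q =>
    ({indS {p | p ∈ F ∧ ∀ q ∈ F, ¬ q < p}} : Set (Q → ℝ))) '' {F : Set Q | IsUpperSet F}) ?_)
    (encard_image_le _ _)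
  rintro G ⟨hne, hex, hdim⟩
  obtain ⟨l, hl⟩ := hex hne
  obtain ⟨v, hv⟩ := hne
  have hbot : vectorSpan ℝ G = ⊥ := by
    have : FiniteDimensional ℝ (vectorSpan ℝ G) := inferInstance
    exact Submodule.finrank_eq_zero.1 hdim
  have hsub : ∀ y ∈ G, y = v := by
    intro y hy
    have h1 : y -ᵥ v ∈ vectorSpan ℝ G := vsub_mem_vectorSpan ℝ hy hv
    rw [hbot, Submodule.mem_bot, vsub_eq_sub, sub_eq_zero] at h1
    exact h1
  have hG : G = {v} := by
    ext y
    exact ⟨fun h => hsub y h, fun h => by rw [mem_singleton_iff] at h; rwa [h]⟩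
  have hv2 : v ∈ chainP Q ∧ ∀ y ∈ chainP Q, l y ≤ l v := by
    rw [hl] at hv
    exact hv
  obtain ⟨S, hS, hvS⟩ := vertex hv2.1 (l : (Q → ℝ) →ₗ[ℝ] ℝ) (fun y hy => hv2.2 y hy)
    (fun y hy h => hsub y (by
      rw [hl]
      refine ⟨hy, fun z hz => ?_⟩
      have h' : l y = l v := h
      rw [h']
      exact hv2.2 z hz))
  refine ⟨{p | ∃ q ∈ S, q ≤ p}, ?_, ?_⟩
  · rintro p q hpq ⟨r, hr, hrp⟩
    exact ⟨r, hr, hrp.trans hpq⟩
  · have h1 : {p | p ∈ {p | ∃ q ∈ S, q ≤ p} ∧ ∀ q ∈ {p | ∃ q ∈ S, q ≤ p}, ¬ q < p} = S := by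
      ext p
      constructor
      · rintro ⟨⟨q, hq, hqp⟩, h2⟩
        rcases hqp.eq_or_lt with h | h
        · rwa [← h]
        · exact absurd h (h2 q ⟨q, hq, le_rfl⟩)
      · intro hp
        refine ⟨⟨p, hp, le_rfl⟩, ?_⟩
        rintro q ⟨r, hr, hrq⟩ hqp
        exact hS r hr p hp (lt_of_le_of_lt hrq hqp)
    show ({indS {p | p ∈ {p | ∃ q ∈ S, q ≤ p} ∧ ∀ q ∈ {p | ∃ q ∈ S, q ≤ p}, ¬ q < p}} :
      Set (Q → ℝ)) = G
    rw [h1, hG, hvS]

end count

section unmarked

variable {P : Type*} [PartialOrder P] [BoundedOrder P] [Fintype P]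

omit [Fintype P] in
theorem CO_univ_empty (lam : ({⊥, ⊤} : Set P) → ℝ) (h0 : lam ⟨⊥, Or.inl rfl⟩ = 0)
    (h1 : lam ⟨⊤, Or.inr rfl⟩ = 1) :
    CO lam Set.univ ∅ = orderP {p : P // p ∉ ({⊥, ⊤} : Set P)} := by
  ext x
  constructor
  · rintro ⟨-, h2, h3, h4, -, -⟩
    refine ⟨fun p q hpq => h2 p trivial q trivial hpq, fun p => ?_, fun p => ?_⟩
    · have := h3 p trivial ⟨⊤, Or.inr rfl⟩ (lt_top_iff_ne_top.2 fun h => p.2 (Or.inr h))
      rwa [h1] at this
    · have := h4 p trivial ⟨⊥, Or.inl rfl⟩ (bot_lt_iff_ne_bot.2 fun h => p.2 (Or.inl h))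
      rwa [h0] at this
  · rintro ⟨h2, h3, h4⟩
    refine ⟨fun p hp => absurd hp (by simp), fun p _ q _ hpq => h2 p q hpq, ?_, ?_, ?_, ?_⟩
    · rintro p - ⟨a, rfl | rfl⟩ hpa
      · exact absurd hpa (by simp)
      · rw [h1]
        exact h3 p
    · rintro p - ⟨a, rfl | rfl⟩ hpa
      · rw [h0]
        exact h4 p
      · exact absurd hpa (by simp)
    · intro s hs hsU
      obtain ⟨c, hc⟩ := hs
      exact absurd (hsU hc) (by simp)
    · intro s hs hsU
      obtain ⟨c, hc⟩ := hs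
      exact absurd (hsU hc) (by simp)

omit [Fintype P] in
theorem CO_empty_univ (lam : ({⊥, ⊤} : Set P) → ℝ) (h0 : lam ⟨⊥, Or.inl rfl⟩ = 0)
    (h1 : lam ⟨⊤, Or.inr rfl⟩ = 1) :
    CO lam ∅ Set.univ = chainP {p : P // p ∉ ({⊥, ⊤} : Set P)} := by
  ext x
  have hbot : mu lam x (⊥ : P) = 0 := by
    unfold mu
    rw [dif_pos (show (⊥ : P) ∈ ({⊥, ⊤} : Set P) from Or.inl rfl)]
    exact h0
  have htop : mu lam x (⊤ : P) = 1 := by
    unfold mu
    rw [dif_pos (show (⊤ : P) ∈ ({⊥, ⊤} : Set P) from Or.inr rfl)]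
    exact h1
  constructor
  · rintro ⟨h2, -, -, -, -, h6⟩
    refine ⟨fun p => h2 p trivial, fun s hs => ?_⟩
    rcases s.eq_empty_or_nonempty with he | hne
    · rw [he]
      simp
    · have := h6 s hne (subset_univ _) hs ⊤ ⊥ (Or.inl (Or.inr rfl)) (Or.inl (Or.inl rfl))
        (fun p _ => ⟨bot_lt_iff_ne_bot.2 fun h => p.2 (Or.inl h),
          lt_top_iff_ne_top.2 fun h => p.2 (Or.inr h)⟩)
      rw [htop, hbot, sub_zero] at this
      exact this
  · rintro ⟨h2, h3⟩
    refine ⟨fun p _ => h2 p, fun p hp => absurd hp (by simp), fun p hp => absurd hp (by simp),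
      fun p hp => absurd hp (by simp), fun s _ _ _ q hq => absurd hq (by simp), ?_⟩
    intro s hne hsU hs a b ha hb' hbet
    obtain ⟨c, hc⟩ := hne
    have ha2 : a = ⊤ := by
      rcases ha with (h | h) | ⟨q, hq, -⟩
      · exact absurd (hbet c hc).2 (by rw [h]; simp)
      · exact h
      · exact absurd hq (by simp)
    have hb2 : b = ⊥ := by
      rcases hb' with (h | h) | ⟨q, hq, -⟩
      · exact h
      · exact absurd (hbet c hc).1 (by rw [h]; simp)
      · exact absurd hq (by simp)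
    rw [ha2, hb2, htop, hbot, sub_zero]
    exact h3 s hs

/-- In the unmarked case every chain-order polytope has exactly as many vertices as the poset has
upper sets. -/
theorem vertices (lam : ({⊥, ⊤} : Set P) → ℝ) (h0 : lam ⟨⊥, Or.inl rfl⟩ = 0)
    (h1 : lam ⟨⊤, Or.inr rfl⟩ = 1) (U₁ U₂ : Set {p : P // p ∉ ({⊥, ⊤} : Set P)})
    (hU : Decomposition {⊥, ⊤} U₁ U₂) :
    fNum (CO lam U₁ U₂) 0 =
      Set.encard {F : Set {p : P // p ∉ ({⊥, ⊤} : Set P)} | IsUpperSet F} := by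
  classical
  have hA : ∀ p : P, IsMin p ∨ IsMax p → p ∈ ({⊥, ⊤} : Set P) := by
    rintro p (h | h)
    · exact Or.inl (isMin_iff_eq_bot.1 h)
    · exact Or.inr (isMax_iff_eq_top.1 h)
  have hlam : ∀ a, 0 ≤ lam a := by
    rintro ⟨a, rfl | rfl⟩
    · rw [h0]
    · rw [h1]
      exact zero_le_one
  apply le_antisymm
  · have := mono {⊥, ⊤} hA lam hlam ∅ univ U₁ U₂ ⟨by simp, by simp⟩ hU (empty_subset _) 0
    rw [CO_empty_univ lam h0 h1] at this
    exact this.trans chain_le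
  · have := mono {⊥, ⊤} hA lam hlam U₁ U₂ univ ∅ hU ⟨by simp, by simp⟩ (subset_univ _) 0
    rw [CO_univ_empty lam h0 h1] at this
    exact le_order.trans this

end unmarked

end Pool.Agent.Y388.HL.VertCount
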